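import Pool.Agent.Run7.h105.PC.Defs

/-!
# Project PC (helper105), piece LOW (slot 2, helper888)
-/

set_option autoImplicit false

open Filter Topology Set MeasureTheory Pool.Agent.Run7.h105.PC
open scoped ENNReal

namespace Run7.h888.PC

theorem t_LOW : S_LOWK → S_BOX → S_BAD2 → S_LOW := by
  intro hLK hBOX hBAD s c hs hc K hK hKc ε hε
  obtain ⟨hc0, hcl, hcu⟩ := hc
  obtain ⟨lam, hlam⟩ : ∃ lam : ℝ, lam = (volume K).toReal := ⟨_, rfl⟩
  rw [← hlam]
  have hlam0 : 0 ≤ lam := by rw [hlam]; exact ENNReal.toReal_nonneg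
  have hlam1 : lam ≤ 1 := by
    have h1 : volume K ≤ volume (Icc (0:ℝ) 1) := measure_mono hK
    rw [Real.volume_Icc] at h1
    have h2 := ENNReal.toReal_mono ENNReal.ofReal_ne_top h1
    rw [← hlam, ENNReal.toReal_ofReal (by norm_num)] at h2
    linarith
  obtain ⟨η, hη0, hη1, hη2⟩ : ∃ η : ℝ, 0 < η ∧ η ≤ 1 ∧ η * (c + 4) ≤ ε / 2 := by
    have hc4 : 0 < c + 4 := by linarith
    refine ⟨min 1 (ε / (2 * (c + 4))), lt_min one_pos (by positivity), min_le_left _ _, ?_⟩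
    have h1 : min 1 (ε / (2 * (c + 4))) ≤ ε / (2 * (c + 4)) := min_le_right _ _
    have h2 : min 1 (ε / (2 * (c + 4))) * (c + 4) ≤ ε / (2 * (c + 4)) * (c + 4) :=
      mul_le_mul_of_nonneg_right h1 hc4.le
    have h3 : ε / (2 * (c + 4)) * (c + 4) = ε / 2 := by field_simp
    linarith
  obtain ⟨m, hm1, hm⟩ := hcu η hη0
  obtain ⟨r, hr1, hr⟩ : ∃ r : ℕ, 1 ≤ r ∧ c / ((r : ℝ) + 1) ≤ ε / 4 := by
    obtain ⟨r, hr⟩ := exists_nat_ge (4 * c / ε)
    refine ⟨r + 1, by omega, ?_⟩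
    rw [div_le_iff₀ (by positivity)]
    rw [div_le_iff₀ hε] at hr
    push_cast
    nlinarith
  have e1 : ∀ᶠ k : ℕ in atTop, lam - η < ((cells K k).card : ℝ) / k := by
    have := hBOX K hK hKc
    rw [← hlam] at this
    exact this.eventually_const_lt (by linarith)
  have hp : 1 ≤ m * r ^ 2 := Nat.mul_pos hm1 (pow_pos hr1 2)
  have e2 : ∀ᶠ k : ℕ in atTop, ((bad K k (m * r ^ 2)).card : ℝ) / k < η :=
    (hBAD K hK hKc (m * r ^ 2) hp).eventually_lt_const hη0
  obtain ⟨k₀, hk₀⟩ := eventually_atTop.1 (e1.and e2)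
  have hmR : (1 : ℝ) ≤ m := by exact_mod_cast hm1
  have hrR : (1 : ℝ) ≤ r := by exact_mod_cast hr1
  have hg0 : (0 : ℝ) ≤ G s m := Nat.cast_nonneg _
  have hden : 0 < c * m + c + G s m := by positivity
  refine ⟨min (1 / ((m : ℝ) * (k₀ + 1))) (ε / (4 * (c * m + c + G s m))),
    lt_min (by positivity) (by positivity), fun δ hδ hδ2 X hX => ?_⟩
  obtain ⟨hδa, hδb⟩ := lt_min_iff.1 hδ2
  have hmδ : 0 < (m : ℝ) * δ := by positivity
  obtain ⟨k, hk⟩ : ∃ k : ℕ, k = ⌊1 / ((m : ℝ) * δ)⌋₊ := ⟨_, rfl⟩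
  have hkk : k₀ + 1 ≤ k := by
    rw [hk]
    apply Nat.le_floor
    rw [lt_div_iff₀ (by positivity)] at hδa
    rw [le_div_iff₀ hmδ]
    push_cast
    nlinarith
  have hk1 : 1 ≤ k := by omega
  have hkR : (1 : ℝ) ≤ k := by exact_mod_cast hk1
  have h4 : (m : ℝ) * k * δ ≤ 1 := by
    have : (k : ℝ) ≤ 1 / ((m : ℝ) * δ) := by rw [hk]; exact Nat.floor_le (by positivity)
    rw [le_div_iff₀ hmδ] at this
    linarith
  have h5 : 1 - m * δ ≤ (m : ℝ) * k * δ := by
    have : 1 / ((m : ℝ) * δ) < k + 1 := by rw [hk]; exact Nat.lt_floor_add_one _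
    rw [div_lt_iff₀ hmδ] at this
    linarith
  obtain ⟨e3, e4⟩ := hk₀ k (by omega)
  have h6 : (lam - η) * k ≤ (cells K k).card := by
    rw [lt_div_iff₀ (by linarith)] at e3
    exact e3.le
  have h7 : ((bad K k (m * r ^ 2)).card : ℝ) ≤ η * k := by
    rw [div_lt_iff₀ (by linarith)] at e4
    exact e4.le
  have hcov : Cov s (1 / ((m : ℝ) * k)) K X := by
    refine hX.mono (by linarith) ?_
    rw [le_div_iff₀ (by positivity)]
    linarith
  have h1 := hLK s (by linarith) K hK m r k hm1 hr1 hk1 X hcov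
  have hA : (cells K k).card ≤ k + 1 := by
    classical
    have hsub : cells K k ⊆ Finset.range (k + 1) := by
      unfold cells
      exact Finset.filter_subset _ _
    have hcard := Finset.card_le_card hsub
    rw [Finset.card_range] at hcard
    exact hcard
  have h2 := hcl (m * k * r / (r + 1))
  have h3 : (m : ℝ) * k * r ≤ (r + 1) * (((m * k * r / (r + 1) : ℕ) : ℝ) + 1) := by
    have q1 := Nat.div_add_mod (m * k * r) (r + 1)
    have q2 := Nat.mod_lt (m * k * r) (show 0 < r + 1 by omega)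
    have q3 : m * k * r ≤ (r + 1) * (m * k * r / (r + 1) + 1) := by
      rw [mul_add, mul_one]
      omega
    exact_mod_cast q3
  have h1R : (G s (m * k * r / (r + 1)) : ℝ) ≤
      X.card + G s m * ((k : ℝ) + 1 - (cells K k).card) +
        ((m : ℝ) + 1) * (bad K k (m * r ^ 2)).card := by
    have : (G s (m * k * r / (r + 1)) : ℝ) ≤
      ((X.card + G s m * (k + 1 - (cells K k).card) + (m + 1) * (bad K k (m * r ^ 2)).card : ℕ) : ℝ) := by
      exact_mod_cast h1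
    push_cast [Nat.cast_sub hA] at this
    exact this
  obtain ⟨q, hq⟩ : ∃ q : ℝ, q = ((m * k * r / (r + 1) : ℕ) : ℝ) := ⟨_, rfl⟩
  obtain ⟨g, hg⟩ : ∃ g : ℝ, g = (G s m : ℝ) := ⟨_, rfl⟩
  obtain ⟨N, hN⟩ : ∃ N : ℝ, N = (X.card : ℝ) := ⟨_, rfl⟩
  obtain ⟨A, hAe⟩ : ∃ A : ℝ, A = ((cells K k).card : ℝ) := ⟨_, rfl⟩
  obtain ⟨B, hBe⟩ : ∃ B : ℝ, B = ((bad K k (m * r ^ 2)).card : ℝ) := ⟨_, rfl⟩
  rw [← hq] at h2 h3
  rw [← hg] at hm hg0 hden hδb
  rw [← hg, ← hN, ← hAe, ← hBe] at h1R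
  rw [← hAe] at h6
  rw [← hBe] at h7
  rw [← hN]
  have hmain : c * q ≤ N + g * ((k : ℝ) + 1 - A) + ((m : ℝ) + 1) * B := h2.trans h1R
  -- the three estimates
  have i1 : c * (1 - m * δ) - ε / 4 - c * δ ≤ c * q * δ := by
    have hr1' : (0 : ℝ) < r + 1 := by positivity
    have j1 : (m : ℝ) * k * r / (r + 1) ≤ q + 1 := by
      rw [div_le_iff₀ hr1']
      linarith
    have j2 : (m : ℝ) * k * r / (r + 1) = m * k - m * k / (r + 1) := by
      field_simp
      ring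
    have j3 : c * (m * k - m * k / (r + 1)) * δ ≤ c * (q + 1) * δ := by
      rw [← j2]
      exact mul_le_mul_of_nonneg_right (mul_le_mul_of_nonneg_left j1 hc0.le) hδ.le
    have j4 : c * (m * k - m * k / (r + 1)) * δ = c * (m * k * δ) - (c / (r + 1)) * (m * k * δ) := by
      ring
    have j5 : (c / (r + 1)) * (m * k * δ) ≤ ε / 4 := by
      have : (c / (r + 1)) * (m * k * δ) ≤ (c / (r + 1)) * 1 :=
        mul_le_mul_of_nonneg_left h4 (by positivity)
      linarith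
    have j6 : c * (1 - m * δ) ≤ c * (m * k * δ) := mul_le_mul_of_nonneg_left h5 hc0.le
    linarith
  have i2 : g * ((k : ℝ) + 1 - A) * δ ≤ (c + η) * (1 - lam + η) + g * δ := by
    have j1 : g * ((k : ℝ) + 1 - A) ≤ g * ((1 - lam + η) * k + 1) :=
      mul_le_mul_of_nonneg_left (by linarith) hg0
    have j2 : g * ((k : ℝ) + 1 - A) * δ ≤ g * ((1 - lam + η) * k + 1) * δ :=
      mul_le_mul_of_nonneg_right j1 hδ.le
    have j3 : g * (k * δ) ≤ c + η := by
      have : g * (k * δ) ≤ (c + η) * m * (k * δ) := mul_le_mul_of_nonneg_right hm (by positivity)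
      have j4 : (c + η) * (m * k * δ) ≤ (c + η) * 1 := mul_le_mul_of_nonneg_left h4 (by linarith)
      linarith
    have j5 : g * (k * δ) * (1 - lam + η) ≤ (c + η) * (1 - lam + η) :=
      mul_le_mul_of_nonneg_right j3 (by linarith)
    linarith
  have i3 : ((m : ℝ) + 1) * B * δ ≤ 2 * η := by
    have j1 : ((m : ℝ) + 1) * B ≤ (m + 1) * (η * k) := mul_le_mul_of_nonneg_left h7 (by positivity)
    have j2 : ((m : ℝ) + 1) * (η * k) ≤ (2 * m) * (η * k) :=
      mul_le_mul_of_nonneg_right (by linarith) (by positivity)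
    have j3 : ((m : ℝ) + 1) * B * δ ≤ (2 * m) * (η * k) * δ :=
      mul_le_mul_of_nonneg_right (j1.trans j2) hδ.le
    have j4 : 2 * η * (m * k * δ) ≤ 2 * η * 1 := mul_le_mul_of_nonneg_left h4 (by positivity)
    linarith
  have i4 : δ * (c * m + c + g) ≤ ε / 4 := by
    rw [lt_div_iff₀ (by positivity)] at hδb
    linarith
  have i5 : c * q * δ ≤ N * δ + g * ((k : ℝ) + 1 - A) * δ + ((m : ℝ) + 1) * B * δ := by
    have := mul_le_mul_of_nonneg_right hmain hδ.le
    linarith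
  have i6 : η * (1 - lam + η) ≤ η * 2 := mul_le_mul_of_nonneg_left (by linarith) hη0.le
  linarith

end Run7.h888.PC
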